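import Mathlib

set_option autoImplicit false

/-!
# Integral group rings of commutative groups: the trace at `1`
`ℤ[T]` is reduced, has no nontrivial idempotent, and its units of finite order are `±t`.
-/

open MonoidAlgebra

namespace Pool.U674.HF

universe u

section Comm

variable {T : Type u} [CommGroup T]

/-- the standard involution `∑ c_t t ↦ ∑ c_t t⁻¹` of `ℤ[T]`, `T` commutative. -/
noncomputable def st : MonoidAlgebra ℤ T →+* MonoidAlgebra ℤ T :=
  MonoidAlgebra.mapDomainRingHom ℤ (invMonoidHom : T →* T)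

theorem st_single (t : T) (n : ℤ) : st (single t n) = single t⁻¹ n := by
  simp [st]

theorem st_st (x : MonoidAlgebra ℤ T) : st (st x) = x := by
  refine MonoidAlgebra.induction_linear x (by simp) (fun a b ha hb => by rw [map_add, map_add, ha, hb]) ?_
  intro t n
  rw [st_single, st_single, inv_inv]

theorem coeff_st (x : MonoidAlgebra ℤ T) (t : T) : (st x).coeff t = x.coeff t⁻¹ := by
  refine MonoidAlgebra.induction_linear x (by simp) (fun a b ha hb => by
    rw [map_add, coeff_add, coeff_add, Finsupp.add_apply, Finsupp.add_apply, ha, hb]) ?_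
  intro s n
  rw [st_single, coeff_single, coeff_single]
  classical
  rw [Finsupp.single_apply, Finsupp.single_apply]
  congr 1
  exact propext inv_eq_iff_eq_inv

theorem coeff_mul_st (x : MonoidAlgebra ℤ T) :
    (x * st x).coeff 1 = ∑ t ∈ x.coeff.support, x.coeff t ^ 2 := by
  rw [coeff_mul_apply_left, Finsupp.sum]
  refine Finset.sum_congr rfl fun t _ => ?_
  rw [coeff_st]
  simp [sq]

theorem sq_le_coeff_mul_st (x : MonoidAlgebra ℤ T) (t : T) :
    x.coeff t ^ 2 ≤ (x * st x).coeff 1 := by
  rw [coeff_mul_st]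
  by_cases h : t ∈ x.coeff.support
  · exact Finset.single_le_sum (f := fun t => x.coeff t ^ 2) (fun i _ => sq_nonneg _) h
  · rw [Finsupp.notMem_support_iff.1 h]
    simp only [ne_eq, OfNat.ofNat_ne_zero, not_false_eq_true, zero_pow]
    exact Finset.sum_nonneg fun i _ => sq_nonneg _

theorem eq_zero_of_coeff_mul_st (x : MonoidAlgebra ℤ T) (h : (x * st x).coeff 1 = 0) : x = 0 := by
  rw [← coeff_eq_zero]
  ext t
  have := sq_le_coeff_mul_st x t
  rw [h] at this
  exact pow_eq_zero_iff (two_ne_zero) |>.1 (le_antisymm this (sq_nonneg _))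

theorem coeff_pow_two_pow {y : MonoidAlgebra ℤ T} (hy : st y = y) (k : ℕ) :
    (y.coeff 1) ^ (2 ^ (k + 1)) ≤ (y ^ (2 ^ (k + 1))).coeff 1 := by
  induction k with
  | zero =>
    have := sq_le_coeff_mul_st y 1
    rw [hy] at this
    simpa [sq] using this
  | succ k ih =>
    have h1 : st (y ^ (2 ^ (k + 1))) = y ^ (2 ^ (k + 1)) := by rw [map_pow, hy]
    have h2 := sq_le_coeff_mul_st (y ^ (2 ^ (k + 1))) 1
    rw [h1, ← sq, ← pow_mul, ← pow_succ] at h2
    refine le_trans ?_ h2
    rw [pow_succ 2 (k + 1), pow_mul]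
    exact pow_le_pow_left₀ (Even.pow_nonneg (by
      rw [pow_succ]; exact even_two.mul_left _) _) ih 2

theorem eq_zero_of_isNilpotent {x : MonoidAlgebra ℤ T} (h : IsNilpotent x) : x = 0 := by
  obtain ⟨n, hn⟩ := h
  apply eq_zero_of_coeff_mul_st
  set y := x * st x with hy
  have hsy : st y = y := by rw [hy, map_mul, st_st, mul_comm]
  have h1 := coeff_pow_two_pow hsy n
  have h2 : y ^ (2 ^ (n + 1)) = 0 := by
    have h3 : n ≤ 2 ^ (n + 1) := by
      have : n < 2 ^ n := Nat.lt_two_pow_self
      have : 2 ^ n ≤ 2 ^ (n + 1) := Nat.pow_le_pow_right (by norm_num) (by omega)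
      omega
    have h4 : x ^ (2 ^ (n + 1)) = 0 := pow_eq_zero_of_le h3 hn
    rw [hy, mul_pow, h4, zero_mul]
  rw [h2] at h1
  simp only [coeff_zero, Finsupp.coe_zero, Pi.zero_apply] at h1
  have h5 : 0 ≤ (y.coeff 1) ^ (2 ^ (n + 1)) := Even.pow_nonneg (by
      rw [pow_succ]; exact even_two.mul_left _) _
  exact pow_eq_zero_iff (by positivity) |>.1 (le_antisymm h1 h5)

/-- An element of finite order of the unit group of `ℤ[T]` is `t` or `-t`, `t ∈ T`. -/
theorem torsion_unit {x : MonoidAlgebra ℤ T} {n : ℕ} (hn : 0 < n) (hx : x ^ n = 1) :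
    ∃ t : T, x = single t 1 ∨ x = single t (-1) := by
  set y := x * st x with hy
  have hsy : st y = y := by rw [hy, map_mul, st_st, mul_comm]
  have hyn : y ^ n = 1 := by rw [hy, mul_pow, ← map_pow, hx, map_one, one_mul]
  -- the powers of `y` take finitely many values
  have hbd : ∃ B : ℤ, ∀ k : ℕ, (y ^ k).coeff 1 ≤ B := by
    refine ⟨∑ j ∈ Finset.range n, |(y ^ j).coeff 1|, fun k => ?_⟩
    have h1 : y ^ k = y ^ (k % n) := by
      conv_lhs => rw [← Nat.div_add_mod k n, pow_add, pow_mul, hyn, one_pow, one_mul]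
    rw [h1]
    refine (le_abs_self _).trans ?_
    exact Finset.single_le_sum (f := fun j => |(y ^ j).coeff 1|) (fun i _ => abs_nonneg _)
      (Finset.mem_range.2 (Nat.mod_lt _ hn))
  obtain ⟨B, hB⟩ := hbd
  have hy1 : y.coeff 1 ≤ 1 := by
    by_contra hcon
    have h2 : 2 ≤ y.coeff 1 := by omega
    have h3 := coeff_pow_two_pow hsy B.toNat
    have h4 := hB (2 ^ (B.toNat + 1))
    have h5 : (2 : ℤ) ^ (2 ^ (B.toNat + 1)) ≤ (y.coeff 1) ^ (2 ^ (B.toNat + 1)) :=
      pow_le_pow_left₀ (by norm_num) h2 _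
    have h6 : B.toNat < 2 ^ (2 ^ (B.toNat + 1)) :=
      lt_of_lt_of_le (Nat.lt_two_pow_self (n := B.toNat)) (Nat.pow_le_pow_right (by norm_num)
        ((Nat.lt_two_pow_self (n := B.toNat)).le.trans (Nat.pow_le_pow_right (by norm_num) (by omega))))
    have h7 : (B.toNat : ℤ) < (2 : ℤ) ^ (2 ^ (B.toNat + 1)) := by exact_mod_cast h6
    have h8 : B ≤ B.toNat := Int.self_le_toNat B
    omega
  rw [hy, coeff_mul_st] at hy1
  have hx0 : x ≠ 0 := by
    rintro rfl
    rw [zero_pow hn.ne'] at hx
    exact zero_ne_one hx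
  have hne : x.coeff.support.Nonempty := by
    rw [Finsupp.support_nonempty_iff]
    exact fun h => hx0 (coeff_eq_zero.1 h)
  obtain ⟨t, ht⟩ := hne
  have hsq : ∀ s ∈ x.coeff.support, 1 ≤ x.coeff s ^ 2 := fun s hs => by
    have := Finsupp.mem_support_iff.1 hs
    have : 0 < x.coeff s ^ 2 := by positivity
    omega
  have hsupp : ∀ s ∈ x.coeff.support, s = t := by
    classical
    intro s hs
    by_contra hst
    have h1 : ∑ r ∈ ({s, t} : Finset T), x.coeff r ^ 2 ≤ ∑ r ∈ x.coeff.support, x.coeff r ^ 2 :=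
      Finset.sum_le_sum_of_subset_of_nonneg (by
        intro r hr
        simp only [Finset.mem_insert, Finset.mem_singleton] at hr
        rcases hr with rfl | rfl <;> assumption) (fun i _ _ => sq_nonneg _)
    rw [Finset.sum_pair hst] at h1
    have := hsq s hs
    have := hsq t ht
    omega
  have hx' : x = single t (x.coeff t) := by
    rw [← coeff_inj, coeff_single]
    ext s
    classical
    rw [Finsupp.single_apply]
    split_ifs with h
    · rw [h]
    · by_contra h'
      exact h (hsupp s (Finsupp.mem_support_iff.2 h')).symm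
  have hc : x.coeff t ^ 2 = 1 := by
    refine le_antisymm ?_ (hsq t ht)
    refine le_trans ?_ hy1
    exact Finset.single_le_sum (f := fun t => x.coeff t ^ 2) (fun i _ => sq_nonneg _) ht
  refine ⟨t, ?_⟩
  rcases sq_eq_one_iff.1 hc with h | h
  · left; rw [hx', h]
  · right; rw [hx', h]

theorem idem {e : MonoidAlgebra ℤ T} (he : e * e = e) : e = 0 ∨ e = 1 := by
  classical
  have h1 : (1 - 2 * e) ^ 2 = 1 := by
    have : (1 - 2 * e) ^ 2 = 1 - 4 * e + 4 * (e * e) := by ring
    rw [this, he]; ring
  obtain ⟨t, ht | ht⟩ := torsion_unit (by norm_num) h1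
  · -- `1 - 2e = t`
    left
    have h2 : t = 1 := by
      by_contra hne
      have h3 := congrArg (fun z => z.coeff t) ht
      have h4 : (2 * e).coeff t = 2 * e.coeff t := by
        rw [two_mul, coeff_add, Finsupp.add_apply]; ring
      simp only [coeff_sub, Finsupp.sub_apply, h4, coeff_single, Finsupp.single_eq_same, one_def,
        Finsupp.single_apply] at h3
      rw [if_neg (fun h : (1 : T) = t => hne h.symm)] at h3
      omega
    rw [h2, ← one_def] at ht
    have h5 : 2 * e = 0 := by
      have := sub_eq_self.1 ht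
      exact this
    rw [← coeff_eq_zero]
    ext s
    have h4 : (2 * e).coeff s = 2 * e.coeff s := by
      rw [two_mul, coeff_add, Finsupp.add_apply]; ring
    rw [h5] at h4
    simp only [coeff_zero, Finsupp.coe_zero, Pi.zero_apply] at h4 ⊢
    omega
  · right
    have h2 : t = 1 := by
      by_contra hne
      have h3 := congrArg (fun z => z.coeff t) ht
      have h4 : (2 * e).coeff t = 2 * e.coeff t := by
        rw [two_mul, coeff_add, Finsupp.add_apply]; ring
      simp only [coeff_sub, Finsupp.sub_apply, h4, coeff_single, Finsupp.single_eq_same, one_def,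
        Finsupp.single_apply] at h3
      rw [if_neg (fun h : (1 : T) = t => hne h.symm)] at h3
      omega
    have h5 : 2 * (e - 1) = 0 := by
      have h6 : (single (1 : T) (-1 : ℤ)) = -(1 : MonoidAlgebra ℤ T) := by
        rw [one_def, ← single_neg]
      rw [h2, h6] at ht
      have : 2 * (e - 1) = -((1 - 2 * e) + 1) := by ring
      rw [this, ht]; ring
    rw [← sub_eq_zero, ← coeff_eq_zero]
    ext s
    have h4 : (2 * (e - 1)).coeff s = 2 * (e - 1).coeff s := by
      rw [two_mul, coeff_add, Finsupp.add_apply]; ring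
    rw [h5] at h4
    simp only [coeff_zero, Finsupp.coe_zero, Pi.zero_apply] at h4 ⊢
    omega

end Comm

end Pool.U674.HF
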