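import Mathlib
import Pool.Agent.U674.HF.Trace

set_option autoImplicit false

/-!
# Units of `ℤ[G]` for a central extension `T → G → Q` with `Q` a unique product group
Every unit is a unit of `ℤ[T]` times an element of `G`.
-/

open MonoidAlgebra

namespace Pool.U674.HF

universe u

/-- `i : T → G`, `p : G → Q` is a central extension. -/
structure CE {G T Q : Type u} [Group G] [CommGroup T] [Group Q] (i : T →* G) (p : G →* Q) :
    Prop where
  inj : Function.Injective i
  cen : ∀ (t : T) (g : G), i t * g = g * i t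
  surj : Function.Surjective p
  ker : ∀ g : G, p g = 1 ↔ ∃ t : T, i t = g

section

variable {G T Q : Type u} [Group G] [CommGroup T] [Group Q] {i : T →* G} {p : G →* Q}

/-- the inclusion `ℤ[T] → ℤ[G]`. -/
noncomputable def jj (i : T →* G) : MonoidAlgebra ℤ T →+* MonoidAlgebra ℤ G :=
  MonoidAlgebra.mapDomainRingHom ℤ i

theorem jj_single (t : T) (n : ℤ) : jj i (single t n) = single (i t) n := by simp [jj]

theorem CE.p_i (h : CE i p) (t : T) : p (i t) = 1 := (h.ker _).2 ⟨t, rfl⟩

theorem jj_comm (h : CE i p) (a : MonoidAlgebra ℤ T) (x : MonoidAlgebra ℤ G) :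
    jj i a * x = x * jj i a := by
  refine MonoidAlgebra.induction_linear a (by simp) (fun a b ha hb => by
    rw [map_add, add_mul, mul_add, ha, hb]) ?_
  intro t n
  rw [jj_single]
  exact (MonoidAlgebra.single_commute (fun g => h.cen t g) (fun r => Commute.all _ _) x).eq

/-- a section of `p`. -/
noncomputable def CE.s (h : CE i p) (q : Q) : G := Function.surjInv h.surj q

theorem CE.p_s (h : CE i p) (q : Q) : p (h.s q) = q := Function.surjInv_eq h.surj q

theorem CE.exists_tau (h : CE i p) (g : G) : ∃ t : T, i t = g * (h.s (p g))⁻¹ := by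
  rw [← h.ker, map_mul, map_inv, h.p_s, mul_inv_cancel]

/-- the `T`-component of an element of `G`. -/
noncomputable def CE.tau (h : CE i p) (g : G) : T := Classical.choose (h.exists_tau g)

theorem CE.tau_spec (h : CE i p) (g : G) : i (h.tau g) * h.s (p g) = g := by
  rw [CE.tau, Classical.choose_spec (h.exists_tau g), inv_mul_cancel_right]

theorem CE.tau_s (h : CE i p) (q : Q) : h.tau (h.s q) = 1 := by
  apply h.inj
  have := h.tau_spec (h.s q)
  rw [h.p_s] at this
  rw [map_one]
  exact mul_eq_right.1 this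

theorem CE.tau_mul (h : CE i p) (t : T) (g : G) : h.tau (i t * g) = t * h.tau g := by
  apply h.inj
  have h1 := h.tau_spec (i t * g)
  rw [map_mul p, h.p_i, one_mul] at h1
  have h2 := h.tau_spec g
  rw [map_mul]
  apply mul_right_cancel (b := h.s (p g))
  rw [h1, mul_assoc, h2]

/-- the coefficients in `ℤ[T]` of an element of `ℤ[G]`, with respect to the section. -/
noncomputable def CE.C (h : CE i p) :
    MonoidAlgebra ℤ G →+ MonoidAlgebra (MonoidAlgebra ℤ T) Q :=
  liftNC (Int.castAddHom _) (fun g => single (p g) (single (h.tau g) (1 : ℤ)))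

theorem CE.C_single (h : CE i p) (g : G) (n : ℤ) :
    h.C (single g n) = single (p g) (single (h.tau g) n) := by
  rw [CE.C, liftNC_single]
  rw [Int.coe_castAddHom, ← zsmul_eq_mul, smul_single, smul_single, smul_eq_mul, mul_one]

theorem CE.C_jj (h : CE i p) (a : MonoidAlgebra ℤ T) (q : Q) :
    h.C (jj i a * single (h.s q) 1) = single q a := by
  refine MonoidAlgebra.induction_linear a (by simp) (fun a b ha hb => by
    rw [map_add, add_mul, map_add, ha, hb, single_add]) ?_
  intro t n
  rw [jj_single, single_mul_single, h.C_single, mul_one, map_mul, h.p_i, one_mul, h.p_s, h.tau_mul,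
    h.tau_s, mul_one]

theorem CE.recon (h : CE i p) (x : MonoidAlgebra ℤ G) :
    x = ∑ q ∈ (h.C x).coeff.support, jj i ((h.C x).coeff q) * single (h.s q) 1 := by
  have key : ∀ x : MonoidAlgebra ℤ G,
      liftNC ((jj i : MonoidAlgebra ℤ T →+* MonoidAlgebra ℤ G) :
        MonoidAlgebra ℤ T →+ MonoidAlgebra ℤ G) (fun q => single (h.s q) (1 : ℤ)) (h.C x) = x := by
    intro x
    refine MonoidAlgebra.induction_linear x (by simp) (fun a b ha hb => by
      rw [map_add, map_add, ha, hb]) ?_
    intro g n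
    rw [h.C_single, liftNC_single]
    change jj i (single (h.tau g) n) * single (h.s (p g)) 1 = _
    rw [jj_single, single_mul_single, h.tau_spec, mul_one]
  conv_lhs => rw [← key x, ← sum_coeff_single (h.C x)]
  rw [Finsupp.sum, map_sum]
  refine Finset.sum_congr rfl fun q _ => ?_
  rw [liftNC_single]
  rfl

/-- the cocycle. -/
noncomputable def CE.kap (h : CE i p) (q r : Q) : T := h.tau (h.s q * h.s r)

theorem CE.kap_spec (h : CE i p) (q r : Q) : h.s q * h.s r = i (h.kap q r) * h.s (q * r) := by
  have := h.tau_spec (h.s q * h.s r)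
  rw [map_mul, h.p_s, h.p_s] at this
  exact this.symm

open Classical in
theorem CE.coeff_mul' (h : CE i p) (x y : MonoidAlgebra ℤ G) (r : Q) :
    (h.C (x * y)).coeff r = ∑ a ∈ (h.C x).coeff.support, ∑ b ∈ (h.C y).coeff.support,
      if a * b = r then (h.C x).coeff a * ((h.C y).coeff b * single (h.kap a b) 1) else 0 := by
  conv_lhs => rw [h.recon x, h.recon y, Finset.sum_mul_sum]
  rw [map_sum, coeff_sum, Finset.sum_apply']
  refine Finset.sum_congr rfl fun a _ => ?_
  rw [map_sum, coeff_sum, Finset.sum_apply']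
  refine Finset.sum_congr rfl fun b _ => ?_
  have h1 : jj i ((h.C x).coeff a) * single (h.s a) 1 * (jj i ((h.C y).coeff b) * single (h.s b) 1)
      = jj i ((h.C x).coeff a * ((h.C y).coeff b * single (h.kap a b) 1)) *
        single (h.s (a * b)) 1 := by
    rw [mul_assoc, ← mul_assoc (single (h.s a) 1), ← jj_comm h, mul_assoc (jj i _) (single (h.s a) 1),
      single_mul_single, h.kap_spec, map_mul, map_mul, jj_single, mul_assoc, mul_assoc,
      single_mul_single]
  rw [h1, h.C_jj, coeff_single, Finsupp.single_apply]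

/-- the `P`-support. -/
noncomputable def CE.sup (h : CE i p) (P : Ideal (MonoidAlgebra ℤ T)) (x : MonoidAlgebra ℤ G) :
    Finset Q := by
  classical exact (h.C x).coeff.support.filter (fun q => (h.C x).coeff q ∉ P)

theorem CE.mem_sup (h : CE i p) (P : Ideal (MonoidAlgebra ℤ T)) (x : MonoidAlgebra ℤ G) (q : Q) :
    q ∈ h.sup P x ↔ (h.C x).coeff q ∉ P := by
  classical
  unfold CE.sup
  rw [Finset.mem_filter, Finsupp.mem_support_iff]
  refine ⟨fun h => h.2, fun h => ⟨fun h0 => h ?_, h⟩⟩
  rw [h0]
  exact P.zero_mem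

theorem CE.unique (h : CE i p) (P : Ideal (MonoidAlgebra ℤ T)) [hP : P.IsPrime]
    {x y : MonoidAlgebra ℤ G} {a b : Q} (ha : a ∈ h.sup P x) (hb : b ∈ h.sup P y)
    (hu : UniqueMul (h.sup P x) (h.sup P y) a b) : (h.C (x * y)).coeff (a * b) ∉ P := by
  classical
  intro hmem
  rw [h.coeff_mul', ← Finset.sum_product'] at hmem
  have hab : (a, b) ∈ (h.C x).coeff.support ×ˢ (h.C y).coeff.support := by
    rw [h.mem_sup] at ha hb
    rw [Finset.mem_product, Finsupp.mem_support_iff, Finsupp.mem_support_iff]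
    exact ⟨fun h0 => ha (by rw [h0]; exact P.zero_mem), fun h0 => hb (by rw [h0]; exact P.zero_mem)⟩
  rw [← Finset.add_sum_erase _ _ hab] at hmem
  have h1 : ∑ z ∈ ((h.C x).coeff.support ×ˢ (h.C y).coeff.support).erase (a, b),
      (if z.1 * z.2 = a * b then (h.C x).coeff z.1 * ((h.C y).coeff z.2 *
        single (h.kap z.1 z.2) 1) else 0) ∈ P := by
    refine P.sum_mem fun z hz => ?_
    split_ifs with hz1
    · by_cases hx : (h.C x).coeff z.1 ∈ P
      · exact P.mul_mem_right _ hx
      · by_cases hy : (h.C y).coeff z.2 ∈ P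
        · exact P.mul_mem_left _ (P.mul_mem_right _ hy)
        · exfalso
          have := hu ((h.mem_sup P x z.1).2 hx) ((h.mem_sup P y z.2).2 hy) hz1
          exact (Finset.mem_erase.1 hz).1 (Prod.ext this.1 this.2)
    · exact P.zero_mem
  have h2 := (P.add_mem_iff_left h1).1 hmem
  simp only [if_true] at h2
  rcases hP.mem_or_mem h2 with h3 | h3
  · exact (h.mem_sup P x a).1 ha h3
  · rcases hP.mem_or_mem h3 with h4 | h4
    · exact (h.mem_sup P y b).1 hb h4
    · apply hP.ne_top
      rw [Ideal.eq_top_iff_one]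
      have : (1 : MonoidAlgebra ℤ T) = single (h.kap a b)⁻¹ 1 * single (h.kap a b) 1 := by
        rw [single_mul_single, inv_mul_cancel, mul_one, one_def]
      rw [this]
      exact P.mul_mem_left _ h4

theorem CE.C_one (h : CE i p) : h.C 1 = single 1 (single (h.tau 1) 1) := by
  rw [one_def, h.C_single, map_one]

theorem CE.sup_nonempty (h : CE i p) (P : Ideal (MonoidAlgebra ℤ T)) [hP : P.IsPrime]
    {x y : MonoidAlgebra ℤ G} (hxy : x * y = 1) : (h.sup P x).Nonempty ∧ (h.sup P y).Nonempty := by
  classical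
  by_contra hcon
  have h1 : (h.C (x * y)).coeff 1 ∈ P := by
    rw [h.coeff_mul']
    refine P.sum_mem fun a _ => P.sum_mem fun b _ => ?_
    split_ifs with hab
    · by_cases hx : (h.C x).coeff a ∈ P
      · exact P.mul_mem_right _ hx
      · by_cases hy : (h.C y).coeff b ∈ P
        · exact P.mul_mem_left _ (P.mul_mem_right _ hy)
        · exact absurd ⟨⟨a, (h.mem_sup P x a).2 hx⟩, ⟨b, (h.mem_sup P y b).2 hy⟩⟩ hcon
    · exact P.zero_mem
  rw [hxy, h.C_one, coeff_single, Finsupp.single_eq_same] at h1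
  apply hP.ne_top
  rw [Ideal.eq_top_iff_one]
  have : (1 : MonoidAlgebra ℤ T) = single (h.tau 1)⁻¹ 1 * single (h.tau 1) 1 := by
    rw [single_mul_single, inv_mul_cancel, mul_one, one_def]
  rw [this]
  exact P.mul_mem_left _ h1

theorem CE.sup_card (h : CE i p) [TwoUniqueProds Q] (P : Ideal (MonoidAlgebra ℤ T))
    [hP : P.IsPrime] {x y : MonoidAlgebra ℤ G} (hxy : x * y = 1) : (h.sup P x).card ≤ 1 := by
  classical
  obtain ⟨hx, hy⟩ := h.sup_nonempty P hxy
  by_contra hcon
  have h1 : 1 < (h.sup P x).card * (h.sup P y).card := by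
    have := hy.card_pos
    nlinarith
  obtain ⟨p1, hp1, p2, hp2, hne, hu1, hu2⟩ := TwoUniqueProds.uniqueMul_of_one_lt_card h1
  rw [Finset.mem_product] at hp1 hp2
  have k1 := h.unique P hp1.1 hp1.2 hu1
  have k2 := h.unique P hp2.1 hp2.2 hu2
  rw [hxy, h.C_one, coeff_single, Finsupp.single_apply] at k1 k2
  have e1 : (1 : Q) = p1.1 * p1.2 := by
    by_contra hc
    rw [if_neg hc] at k1
    exact k1 P.zero_mem
  have e2 : (1 : Q) = p2.1 * p2.2 := by
    by_contra hc
    rw [if_neg hc] at k2
    exact k2 P.zero_mem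
  have := hu1 hp2.1 hp2.2 (e2.symm.trans e1)
  exact hne (Prod.ext this.1.symm this.2.symm)

theorem CE.ortho (h : CE i p) [TwoUniqueProds Q] {x y : MonoidAlgebra ℤ G} (hxy : x * y = 1)
    {a b : Q} (hab : a ≠ b) : (h.C x).coeff a * (h.C x).coeff b = 0 := by
  classical
  apply eq_zero_of_isNilpotent
  rw [← mem_nilradical, nilradical_eq_sInf, Ideal.mem_sInf]
  intro P hP
  have : P.IsPrime := hP
  by_contra hcon
  have ha : a ∈ h.sup P x := (h.mem_sup P x a).2 fun h0 => hcon (P.mul_mem_right _ h0)
  have hb : b ∈ h.sup P x := (h.mem_sup P x b).2 fun h0 => hcon (P.mul_mem_left _ h0)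
  exact hab (Finset.card_le_one.1 (h.sup_card P hxy) a ha b hb)

/-- **Units of `ℤ[G]`.** -/
theorem CE.unit (h : CE i p) [TwoUniqueProds Q] {x y : MonoidAlgebra ℤ G} (hxy : x * y = 1) :
    ∃ (v w : MonoidAlgebra ℤ T) (g : G), v * w = 1 ∧ x = jj i v * single g 1 := by
  classical
  have h1 : (h.C (x * y)).coeff 1 = single (h.tau 1) 1 := by
    rw [hxy, h.C_one, coeff_single, Finsupp.single_eq_same]
  rw [h.coeff_mul'] at h1
  have h2 : ∀ a : Q, ∃ b : MonoidAlgebra ℤ T, ∑ b ∈ (h.C y).coeff.support,
      (if a * b = 1 then (h.C x).coeff a * ((h.C y).coeff b * single (h.kap a b) 1) else 0)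
      = (h.C x).coeff a * b * single (h.tau 1) 1 := by
    intro a
    refine ⟨(∑ b ∈ (h.C y).coeff.support,
      if a * b = 1 then ((h.C y).coeff b * single (h.kap a b) 1) else 0) *
        single (h.tau 1)⁻¹ 1, ?_⟩
    rw [mul_assoc, mul_assoc, single_mul_single, inv_mul_cancel, mul_one, ← one_def, mul_one,
      Finset.mul_sum]
    refine Finset.sum_congr rfl fun b _ => ?_
    rw [mul_ite, mul_zero]
  choose b hb using h2
  simp only [hb] at h1
  rw [← Finset.sum_mul] at h1
  have h3 : ∑ a ∈ (h.C x).coeff.support, (h.C x).coeff a * b a = 1 := by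
    have := congrArg (fun z => z * single (h.tau 1)⁻¹ (1 : ℤ)) h1
    simpa [mul_assoc, single_mul_single, ← one_def] using this
  -- the summands are idempotent
  have h4 : ∀ a ∈ (h.C x).coeff.support,
      ((h.C x).coeff a * b a) * ((h.C x).coeff a * b a) = (h.C x).coeff a * b a := by
    intro a ha
    conv_rhs => rw [← mul_one ((h.C x).coeff a * b a), ← h3, Finset.mul_sum]
    rw [Finset.sum_eq_single a]
    · intro c _ hca
      have := h.ortho hxy hca.symm
      calc (h.C x).coeff a * b a * ((h.C x).coeff c * b c)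
          = ((h.C x).coeff a * (h.C x).coeff c) * (b a * b c) := by ring
        _ = 0 := by rw [this, zero_mul]
    · intro hn
      exact absurd ha hn
  have h5 : ∃ a ∈ (h.C x).coeff.support, (h.C x).coeff a * b a = 1 := by
    by_contra hcon
    push Not at hcon
    have : ∑ a ∈ (h.C x).coeff.support, (h.C x).coeff a * b a = 0 :=
      Finset.sum_eq_zero fun a ha => (idem (h4 a ha)).resolve_right (hcon a ha)
    rw [this] at h3
    exact zero_ne_one h3
  obtain ⟨a, ha, hab⟩ := h5
  refine ⟨(h.C x).coeff a, b a, h.s a, hab, ?_⟩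
  conv_lhs => rw [h.recon x]
  rw [Finset.sum_eq_single a]
  · intro c _ hca
    have h6 : (h.C x).coeff c = 0 := by
      have := h.ortho hxy hca
      calc (h.C x).coeff c = (h.C x).coeff c * ((h.C x).coeff a * b a) := by rw [hab, mul_one]
        _ = ((h.C x).coeff c * (h.C x).coeff a) * b a := by ring
        _ = 0 := by rw [this, zero_mul]
    rw [h6, map_zero, zero_mul]
  · intro hn
    exact absurd ha hn

end

end Pool.U674.HF
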