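import Mathlib
import Pool.Agent.U674.HF.Units

set_option autoImplicit false

/-!
# Surjective ring endomorphisms of `ℤ[G]` for central extensions `T → G → Q`
`T` torsion, `Q` a unique product group: if `G` is Hopfian then so is `ℤ[G]`.
-/

open MonoidAlgebra

namespace Pool.U674.HF

universe u

section Lam

variable {G : Type u} {K : Type*} [CommGroup K]

/-- the additive extension of a function `f : G → K` to `ℤ[G]`, `K` a commutative group. -/
noncomputable def Lam (f : G → K) : MonoidAlgebra ℤ G →+ Additive K :=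
  (Finsupp.liftAddHom (fun g => (zmultiplesHom (Additive K)) (Additive.ofMul (f g)))).comp
    coeffAddEquiv.toAddMonoidHom

theorem Lam_single (f : G → K) (g : G) (n : ℤ) :
    Lam f (single g n) = n • Additive.ofMul (f g) := by
  unfold Lam
  rw [AddMonoidHom.comp_apply]
  change (Finsupp.liftAddHom fun g => (zmultiplesHom (Additive K)) (Additive.ofMul (f g)))
    (single g n).coeff = _
  rw [coeff_single, Finsupp.liftAddHom_apply_single]
  simp

end Lam

section Aug

variable {G : Type u} [Group G]

/-- the augmentation. -/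
noncomputable def aug (G : Type u) [Group G] : MonoidAlgebra ℤ G →+* ℤ :=
  liftNCRingHom (RingHom.id ℤ) (1 : G →* ℤ) (fun _ _ => Commute.all _ _)

theorem aug_single (g : G) (n : ℤ) : aug G (single g n) = n := by
  unfold aug
  rw [liftNCRingHom_single]
  simp

/-- an additive map killing the images of all group elements under a surjective ring
endomorphism is zero. -/
theorem gen {φ : MonoidAlgebra ℤ G →+* MonoidAlgebra ℤ G} (hφ : Function.Surjective φ)
    {M : Type*} [AddCommGroup M] (f : MonoidAlgebra ℤ G →+ M)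
    (hf : ∀ g : G, f (φ (single g 1)) = 0) (x : MonoidAlgebra ℤ G) : f x = 0 := by
  obtain ⟨y, rfl⟩ := hφ x
  refine MonoidAlgebra.induction_linear y (by simp) (fun a b ha hb => by
    rw [map_add, map_add, ha, hb, add_zero]) ?_
  intro g n
  have : single g n = n • single g (1 : ℤ) := by rw [smul_single, smul_eq_mul, mul_one]
  rw [this, map_zsmul, map_zsmul, hf, smul_zero]

end Aug

section

variable {G T Q : Type u} [Group G] [CommGroup T] [Group Q] {i : T →* G} {p : G →* Q}

theorem aug_jj (a : MonoidAlgebra ℤ T) : aug G (jj i a) = aug T a := by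
  refine MonoidAlgebra.induction_linear a (by simp) (fun a b ha hb => by
    rw [map_add, map_add, map_add, ha, hb]) ?_
  intro t n
  rw [jj_single, aug_single, aug_single]

theorem jj_inj (h : CE i p) : Function.Injective (jj i) :=
  MonoidAlgebra.mapDomain_injective h.inj

/-- the determinant-like map `∑ c_t t ↦ ∏ t^{c_t}`. -/
noncomputable def D (a : MonoidAlgebra ℤ T) : T := (Lam (fun t : T => t) a).toMul

theorem D_add (a b : MonoidAlgebra ℤ T) : D (a + b) = D a * D b := by
  unfold D; rw [map_add, toMul_add]

theorem D_zero : D (0 : MonoidAlgebra ℤ T) = 1 := by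
  unfold D; rw [map_zero, toMul_zero]

theorem D_single (t : T) (n : ℤ) : D (single t n) = t ^ n := by
  unfold D; rw [Lam_single, toMul_zsmul, toMul_ofMul]

theorem D_mul (a b : MonoidAlgebra ℤ T) : D (a * b) = D a ^ (aug T b) * D b ^ (aug T a) := by
  refine MonoidAlgebra.induction_linear a (by simp [D_zero]) (fun a a' ha hb => by
    rw [add_mul, D_add, D_add, ha, hb, map_add, mul_zpow, zpow_add, mul_mul_mul_comm]) ?_
  intro t n
  refine MonoidAlgebra.induction_linear b (by simp [D_zero]) (fun a a' ha hb => by
    rw [mul_add, D_add, D_add, ha, hb, map_add, mul_zpow, zpow_add, mul_mul_mul_comm]) ?_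
  intro s m
  rw [single_mul_single, D_single, D_single, D_single, aug_single, aug_single, mul_zpow, ← zpow_mul,
    ← zpow_mul, mul_comm m n]

theorem Lam_mul {K : Type*} [CommGroup K] {f : G → K} {c : T →* K}
    (hf : ∀ (t : T) (g : G), f (i t * g) = c t * f g) (a : MonoidAlgebra ℤ T) (g : G) :
    Lam f (jj i a * single g 1) = Additive.ofMul (c (D a)) + (aug T a) • Additive.ofMul (f g) := by
  refine MonoidAlgebra.induction_linear a (by simp [D_zero]) (fun a b ha hb => by
    rw [map_add, add_mul, map_add, ha, hb, D_add, map_mul, map_add, ofMul_mul, add_smul]; abel) ?_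
  intro t n
  rw [jj_single, single_mul_single, Lam_single, hf, D_single, aug_single, mul_one, ofMul_mul,
    smul_add, map_zpow, ofMul_zpow]

/-- `D(a) g` depends only on `a g ∈ ℤ[G]`, for `a` of augmentation one. -/
theorem rho_wd (h : CE i p) {a b : MonoidAlgebra ℤ T} (ha : aug T a = 1) (hb : aug T b = 1)
    {g k : G} (he : jj i a * single g 1 = jj i b * single k 1) : i (D a) * g = i (D b) * k := by
  have hC : ∀ (a : MonoidAlgebra ℤ T) (g : G),
      h.C (jj i a * single g 1) = single (p g) (a * single (h.tau g) 1) := by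
    intro a g
    have : jj i a * single g 1 = jj i (a * single (h.tau g) 1) * single (h.s (p g)) 1 := by
      rw [map_mul, jj_single, mul_assoc, single_mul_single, h.tau_spec, mul_one]
    rw [this, h.C_jj]
  have h1 := congrArg h.C he
  rw [hC, hC, single_inj] at h1
  rcases h1 with ⟨h1, h2⟩ | ⟨h1, -⟩
  · have h3 := congrArg D h2
    rw [D_mul, D_mul, ha, hb, D_single, D_single, aug_single, aug_single] at h3
    simp only [zpow_one] at h3
    have e1 := h.tau_spec g
    have e2 := h.tau_spec k
    rw [h1] at e1
    rw [← e1, ← e2, ← mul_assoc, ← mul_assoc, ← map_mul, ← map_mul, h3]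
    rw [e2]
  · have h3 := congrArg (aug T) h1
    rw [map_mul, ha, aug_single, map_zero] at h3
    norm_num at h3

/-- The factorisation of an augmentation preserving surjective endomorphism. -/
theorem exists_theta (h : CE i p) [TwoUniqueProds Q]
    {φ : MonoidAlgebra ℤ G →+* MonoidAlgebra ℤ G} (hφ : Function.Surjective φ)
    (haug : ∀ g : G, aug G (φ (single g 1)) = 1) :
    ∃ θ : G →* G, Function.Surjective θ ∧ ∀ g : G, ∃ v w : MonoidAlgebra ℤ T, v * w = 1 ∧
      aug T v = 1 ∧ D v = 1 ∧ φ (single g 1) = jj i v * single (θ g) 1 := by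
  classical
  have hu : ∀ g : G, ∃ (v w : MonoidAlgebra ℤ T) (k : G), v * w = 1 ∧
      φ (single g 1) = jj i v * single k 1 := by
    intro g
    refine h.unit (y := φ (single g⁻¹ 1)) ?_
    rw [← map_mul, single_mul_single, mul_inv_cancel, mul_one, ← one_def, map_one]
  choose v w k hvw hv using hu
  have hav : ∀ g, aug T (v g) = 1 := by
    intro g
    have := haug g
    rwa [hv, map_mul, aug_jj, aug_single, mul_one] at this
  let θ : G →* G :=
    { toFun := fun g => i (D (v g)) * k g
      map_one' := by
        have h1 : jj i (v 1) * single (k 1) 1 = jj i 1 * single 1 1 := by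
          rw [← hv, ← one_def, map_one, map_one, mul_one]
        rw [rho_wd h (hav 1) (map_one _) h1, one_def, D_single, one_zpow, map_one, mul_one]
      map_mul' := by
        intro a b
        have h1 : jj i (v (a * b)) * single (k (a * b)) 1
            = jj i (v a * v b) * single (k a * k b) 1 := by
          have e : (single (a * b) (1 : ℤ)) = single a 1 * single b 1 := by
            rw [single_mul_single, mul_one]
          rw [← hv, e, map_mul, hv, hv, map_mul, mul_assoc, mul_assoc,
            ← mul_assoc (single (k a) 1), ← jj_comm h, mul_assoc (jj i (v b)), single_mul_single,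
            mul_one]
        rw [rho_wd h (hav _) (by rw [map_mul, hav, hav, mul_one]) h1, D_mul, hav, hav, zpow_one,
          zpow_one, map_mul, mul_assoc, mul_assoc, ← mul_assoc (k a), ← h.cen, mul_assoc] }
  have hθ : ∀ g, θ g = i (D (v g)) * k g := fun g => rfl
  have hpθ : ∀ g, p (θ g) = p (k g) := fun g => by rw [hθ, map_mul, h.p_i, one_mul]
  -- surjectivity modulo `T`
  have hs1 : ∀ q : Q, ∃ g : G, p (θ g) = q := by
    intro q
    by_contra hcon
    push Not at hcon
    let f : G → Multiplicative ℤ := fun g => Multiplicative.ofAdd (if p g = q then 1 else 0)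
    have hf : ∀ (t : T) (g : G), f (i t * g) = (1 : T →* Multiplicative ℤ) t * f g := by
      intro t g
      simp only [f, map_mul, h.p_i, one_mul, MonoidHom.one_apply]
    have h0 := gen hφ (Lam f) (fun g => by
      rw [hv, Lam_mul hf, hav, one_smul, MonoidHom.one_apply, ofMul_one, zero_add]
      have : f (k g) = 1 := by
        simp only [f]
        rw [if_neg]
        · rfl
        · rw [← hpθ]; exact hcon g
      rw [this, ofMul_one])
    obtain ⟨g, hg⟩ := h.surj q
    have h1 := h0 (single g 1)
    rw [Lam_single, one_smul] at h1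
    have h2 : f g = 1 := h1
    simp only [f, hg, if_true] at h2
    have h3 := congrArg Multiplicative.toAdd h2
    simp at h3
  have hs2 : ∀ g : G, ∃ (t : T) (g' : G), g = i t * θ g' := by
    intro g
    obtain ⟨g', hg'⟩ := hs1 (p g)
    have : p (g * (θ g')⁻¹) = 1 := by rw [map_mul, map_inv, hg', mul_inv_cancel]
    obtain ⟨t, ht⟩ := (h.ker _).1 this
    exact ⟨t, g', by rw [ht, inv_mul_cancel_right]⟩
  -- surjectivity
  have hn : (θ.range).Normal := by
    constructor
    rintro _ ⟨x, rfl⟩ g
    obtain ⟨t, g', rfl⟩ := hs2 g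
    refine ⟨g' * x * g'⁻¹, ?_⟩
    rw [map_mul, map_mul, map_inv, mul_inv_rev]
    have h1 : (θ g')⁻¹ * (i t)⁻¹ = (i t)⁻¹ * (θ g')⁻¹ := by
      rw [← mul_inv_rev, ← mul_inv_rev, h.cen]
    rw [h1]
    have h2 : i t * θ g' * θ x * ((i t)⁻¹ * (θ g')⁻¹) = i t * (θ g' * θ x * (i t)⁻¹) * (θ g')⁻¹ := by
      group
    have h3 : θ g' * θ x * (i t)⁻¹ = (i t)⁻¹ * (θ g' * θ x) := by rw [← map_inv i, h.cen]
    rw [h2, h3, mul_inv_cancel_left]
  have hcomm : ∀ a b : G ⧸ θ.range, a * b = b * a := by
    intro a b
    obtain ⟨a, rfl⟩ := QuotientGroup.mk'_surjective θ.range a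
    obtain ⟨b, rfl⟩ := QuotientGroup.mk'_surjective θ.range b
    obtain ⟨t, g, rfl⟩ := hs2 a
    have h1 : (QuotientGroup.mk' θ.range) (i t * θ g) = (QuotientGroup.mk' θ.range) (i t) := by
      rw [map_mul]
      have : (QuotientGroup.mk' θ.range) (θ g) = 1 :=
        (QuotientGroup.eq_one_iff _).2 ⟨g, rfl⟩
      rw [this, mul_one]
    rw [h1, ← map_mul, h.cen, map_mul]
  let _ : CommGroup (G ⧸ θ.range) := { (inferInstance : Group (G ⧸ θ.range)) with mul_comm := hcomm }
  have hs3 : Function.Surjective θ := by
    intro g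
    let f : G → G ⧸ θ.range := fun g => QuotientGroup.mk' θ.range g
    let c : T →* G ⧸ θ.range := (QuotientGroup.mk' θ.range).comp i
    have hf : ∀ (t : T) (g : G), f (i t * g) = c t * f g := by
      intro t g
      exact map_mul (QuotientGroup.mk' θ.range) (i t) g
    have h0 := gen hφ (Lam f) (fun g => by
      rw [hv, Lam_mul hf, hav, one_smul, ← ofMul_mul]
      have : c (D (v g)) * f (k g) = 1 := by
        have : c (D (v g)) * f (k g) = QuotientGroup.mk' θ.range (θ g) := by
          rw [hθ]; exact (map_mul (QuotientGroup.mk' θ.range) _ _).symm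
        rw [this]
        exact (QuotientGroup.eq_one_iff _).2 ⟨g, rfl⟩
      rw [this, ofMul_one])
    have h1 := h0 (single g 1)
    rw [Lam_single, one_smul] at h1
    have h2 : f g = 1 := h1
    exact (QuotientGroup.eq_one_iff _).1 h2
  refine ⟨θ, hs3, fun g => ⟨v g * single (D (v g))⁻¹ 1, w g * single (D (v g)) 1, ?_, ?_, ?_, ?_⟩⟩
  · calc v g * single (D (v g))⁻¹ 1 * (w g * single (D (v g)) 1)
        = (v g * w g) * (single (D (v g))⁻¹ 1 * single (D (v g)) 1) := by ring
      _ = 1 := by rw [hvw, single_mul_single, inv_mul_cancel, mul_one, one_mul, one_def]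
  · rw [map_mul, hav, aug_single, mul_one]
  · rw [D_mul, hav, aug_single, D_single, zpow_one, zpow_one, zpow_one, mul_inv_cancel]
  · rw [hv, hθ, map_mul, jj_single, mul_assoc, single_mul_single, ← mul_assoc, ← map_mul,
      inv_mul_cancel, map_one, one_mul, mul_one]

/-- A ring endomorphism multiplying each group element by a unit of `ℤ[T]` of augmentation and
determinant one is injective. -/
theorem inj_of_twist (h : CE i p) (htor : ∀ t : T, ∃ n : ℕ, 0 < n ∧ t ^ n = 1)
    {α : MonoidAlgebra ℤ G →+* MonoidAlgebra ℤ G}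
    (hα : ∀ g : G, ∃ v w : MonoidAlgebra ℤ T, v * w = 1 ∧
      aug T v = 1 ∧ D v = 1 ∧ α (single g 1) = jj i v * single g 1) : Function.Injective α := by
  classical
  choose v w hvw hav hDv hv using hα
  have hinj := jj_inj h
  have hcan : ∀ (a b : MonoidAlgebra ℤ T) (g : G), jj i a * single g 1 = jj i b * single g 1 →
      a = b := by
    intro a b g hab
    apply hinj
    have := congrArg (fun z => z * single g⁻¹ (1 : ℤ)) hab
    simpa [mul_assoc, single_mul_single, ← one_def] using this
  have hmul : ∀ a b : G, v (a * b) = v a * v b := by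
    intro a b
    apply hcan _ _ (a * b)
    have e : (single (a * b) (1 : ℤ)) = single a 1 * single b 1 := by
      rw [single_mul_single, mul_one]
    rw [← hv, e, map_mul, hv, hv, map_mul, mul_assoc, mul_assoc,
      ← mul_assoc (single a 1), ← jj_comm h, mul_assoc (jj i (v b))]
  have hT : ∀ t : T, v (i t) = 1 := by
    intro t
    obtain ⟨n, hn, htn⟩ := htor t
    have h1 : jj i (v (i t) * single t 1) = α (single (i t) 1) := by
      rw [hv, map_mul, jj_single]
    have h2 : (v (i t) * single t 1) ^ n = 1 := by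
      apply hinj
      rw [map_pow, h1, ← map_pow, single_pow, ← map_pow i, htn, one_pow, map_one i, ← one_def,
        map_one, map_one]
    obtain ⟨s, hs⟩ := torsion_unit hn h2
    have h3 : ∃ e : ℤ, v (i t) = single (s * t⁻¹) e := by
      have h4 : v (i t) = (v (i t) * single t 1) * single t⁻¹ 1 := by
        rw [mul_assoc, single_mul_single, mul_inv_cancel, mul_one, ← one_def, mul_one]
      rcases hs with hs | hs
      · exact ⟨1, by rw [h4, hs, single_mul_single, mul_one]⟩
      · exact ⟨-1, by rw [h4, hs, single_mul_single, mul_one]⟩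
    obtain ⟨e, he⟩ := h3
    have h5 := hav (i t)
    rw [he, aug_single] at h5
    have h6 := hDv (i t)
    rw [he, h5, D_single, zpow_one] at h6
    rw [he, h5, h6, one_def]
  have hvs : ∀ g : G, v g = v (h.s (p g)) := by
    intro g
    conv_lhs => rw [← h.tau_spec g]
    rw [hmul, hT, one_mul]
  have hC : ∀ (x : MonoidAlgebra ℤ G) (q : Q),
      (h.C (α x)).coeff q = (h.C x).coeff q * v (h.s q) := by
    intro x q
    refine MonoidAlgebra.induction_linear x (by simp) (fun a b ha hb => by
      rw [map_add, map_add, map_add, coeff_add, coeff_add, Finsupp.add_apply, Finsupp.add_apply,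
        ha, hb, add_mul]) ?_
    intro g n
    have h1 : α (single g n) = jj i (single (h.tau g) n * v g) * single (h.s (p g)) 1 := by
      have e1 : single g n = n • single g (1 : ℤ) := by rw [smul_single, smul_eq_mul, mul_one]
      have e2 : single (h.tau g) n * v g = n • (single (h.tau g) (1 : ℤ) * v g) := by
        rw [← smul_mul_assoc, smul_single, smul_eq_mul, mul_one]
      rw [e1, map_zsmul, hv, e2, map_zsmul, smul_mul_assoc, mul_comm (single (h.tau g) (1 : ℤ)),
        map_mul, jj_single, mul_assoc, single_mul_single, h.tau_spec, mul_one]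
    rw [h1, h.C_jj, h.C_single, coeff_single, coeff_single, Finsupp.single_apply,
      Finsupp.single_apply]
    split_ifs with hq
    · rw [hvs g, hq]
    · rw [zero_mul]
  rw [injective_iff_map_eq_zero]
  intro x hx
  have h0 : ∀ q : Q, (h.C x).coeff q = 0 := by
    intro q
    have h1 := hC x q
    rw [hx, map_zero, coeff_zero, Finsupp.zero_apply] at h1
    calc (h.C x).coeff q = ((h.C x).coeff q * v (h.s q)) * w (h.s q) := by
          rw [mul_assoc, hvw, mul_one]
      _ = 0 := by rw [← h1, zero_mul]
  rw [h.recon x]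
  refine Finset.sum_eq_zero fun q _ => ?_
  rw [h0, map_zero, zero_mul]

/-- **Main theorem for augmentation preserving endomorphisms.** -/
theorem main_aug (h : CE i p) [TwoUniqueProds Q] (htor : ∀ t : T, ∃ n : ℕ, 0 < n ∧ t ^ n = 1)
    (hG : ∀ f : G →* G, Function.Surjective f → Function.Injective f)
    {φ : MonoidAlgebra ℤ G →+* MonoidAlgebra ℤ G} (hφ : Function.Surjective φ)
    (haug : ∀ g : G, aug G (φ (single g 1)) = 1) : Function.Injective φ := by
  obtain ⟨θ, hθs, hθ⟩ := exists_theta h hφ haug
  let e : G ≃* G := MulEquiv.ofBijective θ ⟨hG θ hθs, hθs⟩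
  let α : MonoidAlgebra ℤ G →+* MonoidAlgebra ℤ G :=
    φ.comp (MonoidAlgebra.mapDomainRingHom ℤ e.symm.toMonoidHom)
  have hα : Function.Injective α := by
    refine inj_of_twist h htor fun g => ?_
    obtain ⟨v, w, h1, h2, h3, h4⟩ := hθ (e.symm g)
    refine ⟨v, w, h1, h2, h3, ?_⟩
    have h5 : θ (e.symm g) = g := e.apply_symm_apply g
    rw [h5] at h4
    rw [← h4]
    simp [α]
  have hcomp : ∀ x, φ x = α (MonoidAlgebra.mapDomainRingHom ℤ e.toMonoidHom x) := by
    intro x
    simp only [α, RingHom.comp_apply]
    congr 1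
    refine MonoidAlgebra.induction_linear x (by simp) (fun a b ha hb => by
      rw [map_add, map_add, ← ha, ← hb]) ?_
    intro g n
    simp
  intro x y hxy
  rw [hcomp, hcomp] at hxy
  exact MonoidAlgebra.mapDomain_injective e.injective (hα hxy)

/-- **Main theorem.** -/
theorem main (h : CE i p) [TwoUniqueProds Q] (htor : ∀ t : T, ∃ n : ℕ, 0 < n ∧ t ^ n = 1)
    (hG : ∀ f : G →* G, Function.Surjective f → Function.Injective f)
    {φ : MonoidAlgebra ℤ G →+* MonoidAlgebra ℤ G} (hφ : Function.Surjective φ) :
    Function.Injective φ := by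
  let χ : G →* ℤ := ((aug G).comp φ : MonoidAlgebra ℤ G →* ℤ).comp (MonoidAlgebra.of ℤ G)
  have hχ : ∀ g, χ g = aug G (φ (single g 1)) := fun g => rfl
  have hχ2 : ∀ g, χ g * χ g = 1 := by
    intro g
    have h1 : χ g * χ g⁻¹ = 1 := by rw [← map_mul, mul_inv_cancel, map_one]
    rcases Int.eq_one_or_neg_one_of_mul_eq_one h1 with h2 | h2 <;> rw [h2] <;> norm_num
  let m : G →* MonoidAlgebra ℤ G :=
    { toFun := fun g => single g (χ g)
      map_one' := by rw [map_one, one_def]
      map_mul' := fun a b => by rw [single_mul_single, map_mul] }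
  let τ : MonoidAlgebra ℤ G →+* MonoidAlgebra ℤ G :=
    liftNCRingHom (Int.castRingHom _) m (fun n g => Int.cast_commute n _)
  have hτ : ∀ (g : G) (n : ℤ), τ (single g n) = single g (n * χ g) := by
    intro g n
    simp only [τ]
    rw [liftNCRingHom_single]
    simp only [m, MonoidHom.coe_mk, OneHom.coe_mk, Int.coe_castRingHom]
    rw [← zsmul_eq_mul, smul_single, smul_eq_mul]
  have hττ : ∀ x, τ (τ x) = x := by
    intro x
    refine MonoidAlgebra.induction_linear x (by simp) (fun a b ha hb => by
      rw [map_add, map_add, ha, hb]) ?_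
    intro g n
    rw [hτ, hτ, mul_assoc, hχ2, mul_one]
  have h1 : Function.Injective (φ.comp τ) := by
    refine main_aug h htor hG ?_ ?_
    · intro y
      obtain ⟨x, rfl⟩ := hφ y
      exact ⟨τ x, by rw [RingHom.comp_apply, hττ]⟩
    · intro g
      rw [RingHom.comp_apply, hτ, one_mul]
      have e1 : single g (χ g) = (χ g) • single g (1 : ℤ) := by
        rw [smul_single, smul_eq_mul, mul_one]
      rw [e1, map_zsmul, map_zsmul, ← hχ, smul_eq_mul, hχ2]
  intro x y hxy
  have h2 : (φ.comp τ) (τ x) = (φ.comp τ) (τ y) := by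
    rw [RingHom.comp_apply, RingHom.comp_apply, hττ, hττ, hxy]
  have h3 := congrArg τ (h1 h2)
  rwa [hττ, hττ] at h3

end

end Pool.U674.HF
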